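import Pool.Agent.H99.AB.Floor

/-!
Project AB: summation of the relations over `b` and Fourier transform over `(ℤ/f)ˣ`.
-/

namespace H99AB

open Finset

variable {k : Type*} [Field k]

/-- the moments `β_j(ψ) = ∑_t ⌊c t / m⌋ t^{-j} ψ(t)`, `t ∈ (ℤ/(f p))ˣ` -/
noncomputable def beta (k : Type*) [Field k] (f p c j : ℕ) [NeZero (f * p)]
    (ψ : (ZMod f)ˣ →* kˣ) : k :=
  ∑ t : (ZMod (f * p))ˣ, ((c * t.val.val / (f * p) : ℕ) : k) * ((t.val.val : k)⁻¹) ^ j *
    (ψ (ZMod.unitsMap (dvd_mul_right f p) t) : k)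

/-- sum over `b` of the relations of the sets `T_b` -/
theorem sum_rel (m : ℕ) [NeZero m] (c : ℕ) (hc : 1 ≤ c) (hcm : c < m) (F : (ZMod m)ˣ → k)
    (H : ∀ b, 1 ≤ b → b < c →
      ∑ t : (ZMod m)ˣ, (if m < t.val.val + (b * t.val.val) % m then F t else 0) = 0) :
    ∑ t : (ZMod m)ˣ, ((c * t.val.val / m : ℕ) : k) * F t = 0 := by
  have h1 : ∀ t : (ZMod m)ˣ, ((c * t.val.val / m : ℕ) : k) * F t =
      ∑ b ∈ Ico 1 c, (if m < t.val.val + (b * t.val.val) % m then F t else 0) := by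
    intro t
    have hcop : Nat.Coprime t.val.val m := ZMod.val_coe_unit_coprime t
    rw [← sum_TM m t.val.val (ZMod.val_lt _) hcop c hc hcm]
    push_cast
    rw [sum_mul]
    refine sum_congr rfl fun b _ => ?_
    split_ifs <;> simp
  rw [sum_congr rfl fun t _ => h1 t, sum_comm]
  refine sum_eq_zero fun b hb => ?_
  rw [mem_Ico] at hb
  exact H b hb.1 hb.2

/-- convolution on a finite commutative group: Fourier transform along a homomorphism -/
theorem fourier_conv {G H : Type*} [CommGroup G] [Fintype G] [Group H] [Fintype H] (π : H →* G)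
    (F : H → k) (y : G → k) (hrel : ∀ w : G, ∑ t : H, F t * y (w * (π t)⁻¹) = 0)
    (ψ : G →* kˣ) :
    (∑ t : H, F t * (ψ (π t) : k)) * (∑ w : G, (ψ w : k) * y w) = 0 := by
  have h1 : ∑ w : G, (ψ w : k) * ∑ t : H, F t * y (w * (π t)⁻¹) = 0 :=
    sum_eq_zero fun w _ => by rw [hrel w, mul_zero]
  have h2 : ∑ w : G, (ψ w : k) * ∑ t : H, F t * y (w * (π t)⁻¹) =
      ∑ t : H, F t * ∑ w : G, (ψ w : k) * y (w * (π t)⁻¹) := by
    simp only [mul_sum]
    rw [sum_comm]
    refine sum_congr rfl fun t _ => sum_congr rfl fun w _ => by ring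
  have h3 : ∀ t : H, ∑ w : G, (ψ w : k) * y (w * (π t)⁻¹) =
      (ψ (π t) : k) * ∑ w : G, (ψ w : k) * y w := by
    intro t
    rw [mul_sum]
    refine Fintype.sum_equiv (Equiv.mulRight ((π t)⁻¹)) _ _ fun w => ?_
    rw [Equiv.coe_mulRight]
    have : (ψ w : k) = (ψ (π t) : k) * (ψ (w * (π t)⁻¹) : k) := by
      rw [← Units.val_mul, ← map_mul]
      congr 2
      rw [mul_comm w, mul_inv_cancel_left]
    rw [this]
    ring
  rw [h2] at h1
  rw [sum_mul, ← h1]
  refine sum_congr rfl fun t _ => ?_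
  rw [h3 t]
  ring

/-- **Fourier form of the relations**: if the relations hold for `1 ≤ b < c`, then for every
character the moment or the character component vanishes. -/
theorem fourier_rel {f p : ℕ} [NeZero (f * p)] (c j : ℕ) (hc : 1 ≤ c) [Fintype (ZMod f)ˣ]
    (hcm : c < f * p) (y : (ZMod f)ˣ → k)
    (H : ∀ b, 1 ≤ b → b < c → ∀ w : (ZMod f)ˣ,
      ∑ t : (ZMod (f * p))ˣ, (if f * p < t.val.val + (b * t.val.val) % (f * p) then
        ((t.val.val : k)⁻¹) ^ j * y (w * (ZMod.unitsMap (dvd_mul_right f p) t)⁻¹) else 0) = 0)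
    (ψ : (ZMod f)ˣ →* kˣ) :
    beta k f p c j ψ = 0 ∨ ∑ w : (ZMod f)ˣ, (ψ w : k) * y w = 0 := by
  have h1 := fourier_conv (ZMod.unitsMap (dvd_mul_right f p))
    (fun t : (ZMod (f * p))ˣ => ((c * t.val.val / (f * p) : ℕ) : k) * ((t.val.val : k)⁻¹) ^ j) y ?_ ψ
  · rcases mul_eq_zero.1 h1 with h | h
    · left
      rw [beta]
      exact h
    · right
      exact h
  · intro w
    have h2 := sum_rel (k := k) (f * p) c hc hcm
      (fun t => ((t.val.val : k)⁻¹) ^ j * y (w * (ZMod.unitsMap (dvd_mul_right f p) t)⁻¹))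
      (fun b hb hbc => H b hb hbc w)
    rw [← h2]
    refine sum_congr rfl fun t _ => ?_
    ring

lemma natCast_of_dvd {p m : ℕ} [CharP k p] (hm : p ∣ m) {a b : ℕ} (h : a % m = b % m) :
    (a : k) = (b : k) := by
  rw [CharP.natCast_eq_natCast k p]
  exact Nat.ModEq.of_dvd hm h

lemma cast_val_mul {p m : ℕ} [CharP k p] [NeZero m] (hm : p ∣ m) (s t : (ZMod m)ˣ) :
    (((s * t : (ZMod m)ˣ).val.val : ℕ) : k) = (s.val.val : k) * (t.val.val : k) := by
  rw [← Nat.cast_mul]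
  refine natCast_of_dvd hm ?_
  rw [Units.val_mul, ZMod.val_mul, Nat.mod_mod]

/-- `∑_t t^{-j} ψ(t) = 0` over the units modulo `f p` if `p - 1` does not divide `j` -/
theorem sum_pow_zero {f p : ℕ} [hp : Fact p.Prime] [CharP k p] [NeZero (f * p)] (j : ℕ)
    (hfp : Nat.Coprime f p) (hj : ¬ (p - 1) ∣ j) (ψ : (ZMod f)ˣ →* kˣ) :
    ∑ t : (ZMod (f * p))ˣ, ((t.val.val : k)⁻¹) ^ j *
      (ψ (ZMod.unitsMap (dvd_mul_right f p) t) : k) = 0 := by
  classical
  have hfne : NeZero f := ⟨fun h => NeZero.ne (f * p) (by rw [h, zero_mul])⟩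
  obtain ⟨u, hu⟩ := IsCyclic.exists_generator (α := (ZMod p)ˣ)
  have hord : orderOf u = p - 1 := by
    rw [orderOf_eq_card_of_forall_mem_zpowers hu, Nat.card_eq_fintype_card, ZMod.card_units]
  have huj : u ^ j ≠ 1 := by
    intro h
    exact hj (hord ▸ orderOf_dvd_of_pow_eq_one h)
  set g : (ZMod (f * p))ˣ := (Units.mapEquiv (ZMod.chineseRemainder hfp).toMulEquiv).symm
    (MulEquiv.prodUnits.symm (1, u)) with hg
  have hg0 : ZMod.chineseRemainder hfp (g : ZMod (f * p)) = (1, (u : ZMod p)) := by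
    have h1 : (Units.mapEquiv (ZMod.chineseRemainder hfp).toMulEquiv) g =
        MulEquiv.prodUnits.symm (1, u) := by
      rw [hg, MulEquiv.apply_symm_apply]
    have h2 := congrArg (fun x : (ZMod f × ZMod p)ˣ => (x : ZMod f × ZMod p)) h1
    exact h2
  have hgp : ((g.val.val : ℕ) : ZMod p) = (u : ZMod p) := by
    have h1 : ZMod.chineseRemainder hfp (g : ZMod (f * p)) =
        ((g.val.val : ZMod f), (g.val.val : ZMod p)) := by
      conv_lhs => rw [← ZMod.natCast_zmod_val (g : ZMod (f * p))]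
      rw [map_natCast]
      rfl
    rw [hg0] at h1
    exact (congrArg Prod.snd h1).symm
  have hgf : ZMod.unitsMap (dvd_mul_right f p) g = 1 := by
    have h1 : ZMod.chineseRemainder hfp (g : ZMod (f * p)) =
        ((g.val.val : ZMod f), (g.val.val : ZMod p)) := by
      conv_lhs => rw [← ZMod.natCast_zmod_val (g : ZMod (f * p))]
      rw [map_natCast]
      rfl
    rw [hg0] at h1
    have h2 := (congrArg Prod.fst h1).symm
    ext
    rw [ZMod.unitsMap_def, Units.coe_map, Units.val_one]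
    have h3 : (ZMod.castHom (dvd_mul_right f p) (ZMod f)) (g : ZMod (f * p)) =
        ((g.val.val : ℕ) : ZMod f) := by
      conv_lhs => rw [← ZMod.natCast_zmod_val (g : ZMod (f * p))]
      rw [map_natCast]
    exact h3.trans h2
  have hgk : ((g.val.val : k)) ^ j ≠ 1 := by
    intro h
    apply huj
    have h1 : (((g.val.val) ^ j : ℕ) : k) = ((1 : ℕ) : k) := by
      push_cast
      exact h
    rw [CharP.natCast_eq_natCast k p] at h1
    have h2 : (((g.val.val) ^ j : ℕ) : ZMod p) = ((1 : ℕ) : ZMod p) :=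
      (ZMod.natCast_eq_natCast_iff _ _ _).2 h1
    push_cast at h2
    rw [hgp] at h2
    ext
    push_cast
    exact h2
  have hpm : p ∣ f * p := dvd_mul_left p f
  set S0 := ∑ t : (ZMod (f * p))ˣ, ((t.val.val : k)⁻¹) ^ j *
      (ψ (ZMod.unitsMap (dvd_mul_right f p) t) : k) with hS0
  have h1 : S0 = ∑ t : (ZMod (f * p))ˣ, (((g * t : (ZMod (f * p))ˣ).val.val : k)⁻¹) ^ j *
      (ψ (ZMod.unitsMap (dvd_mul_right f p) (g * t)) : k) :=
    (Fintype.sum_equiv (Equiv.mulLeft g) _ _ fun t => rfl).symm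
  have h2 : ∀ t : (ZMod (f * p))ˣ, (((g * t : (ZMod (f * p))ˣ).val.val : k)⁻¹) ^ j *
      (ψ (ZMod.unitsMap (dvd_mul_right f p) (g * t)) : k) =
      ((g.val.val : k)⁻¹) ^ j * (((t.val.val : k)⁻¹) ^ j *
        (ψ (ZMod.unitsMap (dvd_mul_right f p) t) : k)) := by
    intro t
    rw [cast_val_mul hpm, mul_inv, mul_pow, map_mul, hgf, one_mul]
    ring
  rw [sum_congr rfl fun t _ => h2 t, ← mul_sum, ← hS0] at h1
  by_contra hne
  have h3 : (1 : k) = ((g.val.val : k)⁻¹) ^ j := by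
    apply mul_right_cancel₀ hne
    rw [one_mul]
    exact h1
  apply hgk
  rw [inv_pow] at h3
  rw [← inv_inv ((g.val.val : k) ^ j), ← h3, inv_one]

/-- parity: `β_j(ψ) = 0` if `ψ(-1) = (-1)^j` (`j` not divisible by `p - 1`, `c` prime to `f p`) -/
theorem beta_parity {f p : ℕ} [hp : Fact p.Prime] [CharP k p] [NeZero (f * p)] (c j : ℕ)
    (hcop : Nat.Coprime c (f * p)) (hfp : Nat.Coprime f p)
    (hj : ¬ (p - 1) ∣ j) (ψ : (ZMod f)ˣ →* kˣ) (h2 : (2 : k) ≠ 0)
    (hpar : (ψ (-1) : k) = (-1) ^ j) :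
    beta k f p c j ψ = 0 := by
  classical
  have hz := sum_pow_zero (k := k) j hfp hj ψ
  have hf1 : 1 < f * p := by
    have h3 := hp.out.two_le
    have h4 : f ≠ 0 := fun h => NeZero.ne (f * p) (by rw [h, zero_mul])
    have h5 : 0 < f := Nat.pos_of_ne_zero h4
    nlinarith
  set m := f * p with hm
  set π := ZMod.unitsMap (dvd_mul_right f p) with hπ
  have hneg : ∀ t : (ZMod m)ˣ, ((-t : (ZMod m)ˣ).val.val : ℕ) = m - t.val.val := by
    intro t
    rw [Units.val_neg, ZMod.neg_val, if_neg]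
    intro h
    have h3 := ZMod.val_coe_unit_coprime t
    rw [h, ZMod.val_zero, Nat.coprime_zero_left] at h3
    omega
  have hpk : ((m : ℕ) : k) = 0 := by
    rw [hm, Nat.cast_mul, CharP.cast_eq_zero k p, mul_zero]
  have hcast : ∀ t : (ZMod m)ˣ, (((-t : (ZMod m)ˣ).val.val : ℕ) : k) = - (t.val.val : k) := by
    intro t
    rw [hneg, Nat.cast_sub (ZMod.val_lt _).le, hpk, zero_sub]
  have hfl : ∀ t : (ZMod m)ˣ, ((c * (-t : (ZMod m)ˣ).val.val / m : ℕ) : k) =
      (c : k) - 1 - ((c * t.val.val / m : ℕ) : k) := by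
    intro t
    have h3 := floor_neg m t.val.val c (ZMod.val_lt _).le (by
      intro h
      have h4 : m ∣ t.val.val := (Nat.Coprime.dvd_of_dvd_mul_left hcop.symm h)
      have h5 := Nat.Coprime.eq_one_of_dvd (ZMod.val_coe_unit_coprime t).symm h4
      omega)
    rw [hneg]
    have h4 : (((c * (m - t.val.val) / m + c * t.val.val / m + 1 : ℕ)) : k) = (c : k) := by
      rw [h3]
    push_cast at h4
    rw [← h4]
    push_cast
    ring
  have hψ : ∀ t : (ZMod m)ˣ, (ψ (π (-t)) : k) = (-1) ^ j * (ψ (π t) : k) := by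
    intro t
    have h3 : π (-t) = (-1) * π t := by
      ext
      simp [hπ, ZMod.unitsMap_def]
    rw [h3, map_mul, Units.val_mul, hpar]
  have hsum : beta k f p c j ψ = ∑ t : (ZMod m)ˣ, ((c * (-t : (ZMod m)ˣ).val.val / m : ℕ) : k) *
      (((-t : (ZMod m)ˣ).val.val : k)⁻¹) ^ j * (ψ (π (-t)) : k) := by
    rw [beta]
    exact (Fintype.sum_equiv (Equiv.neg _) _ _ fun t => rfl).symm
  have hterm : ∀ t : (ZMod m)ˣ, ((c * (-t : (ZMod m)ˣ).val.val / m : ℕ) : k) *
      (((-t : (ZMod m)ˣ).val.val : k)⁻¹) ^ j * (ψ (π (-t)) : k) =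
      ((c : k) - 1) * (((t.val.val : k)⁻¹) ^ j * (ψ (π t) : k)) -
        ((c * t.val.val / m : ℕ) : k) * ((t.val.val : k)⁻¹) ^ j * (ψ (π t) : k) := by
    intro t
    rw [hfl, hcast, hψ, inv_neg, neg_pow]
    have h3 : ((-1 : k) ^ j) * (-1) ^ j = 1 := by
      rw [← mul_pow]
      simp
    calc ((c : k) - 1 - ((c * t.val.val / m : ℕ) : k)) * ((-1) ^ j * ((t.val.val : k)⁻¹) ^ j) *
        ((-1) ^ j * (ψ (π t) : k))
        = ((c : k) - 1 - ((c * t.val.val / m : ℕ) : k)) * (((-1) ^ j * (-1) ^ j) *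
          (((t.val.val : k)⁻¹) ^ j * (ψ (π t) : k))) := by ring
      _ = _ := by rw [h3]; ring
  rw [sum_congr rfl fun t _ => hterm t, sum_sub_distrib, ← mul_sum, hz, mul_zero, zero_sub] at hsum
  have h3 : (2 : k) * beta k f p c j ψ = 0 := by
    have h4 : beta k f p c j ψ = - beta k f p c j ψ := by
      conv_lhs => rw [hsum]
      rfl
    linear_combination h4
  exact (mul_eq_zero.1 h3).resolve_left h2

end H99AB
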