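import Pool.Agent.H99.AB.Jump
import Pool.Agent.H22.GW.Defs

/-!
Project AB: the bridge from the moments `β_j(ψ)` to the weighted gap theorem of project GW.
-/

namespace H99AB

open Finset Polynomial NumberField

variable {F : Type*} [Field F]

/-- the coefficient functions `∑_{i < p-1} y^{-(i+1)} X^i = (X^(p-1) - 1) / (X - y)` -/
noncomputable def Py (p : ℕ) (y : F) : F[X] := ∑ i ∈ range (p - 1), C ((y⁻¹) ^ (i + 1)) * X ^ i

lemma Py_mul (p : ℕ) {y : F} (hy : y ≠ 0) (hyp : y ^ (p - 1) = 1) :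
    (X - C y) * Py p y = X ^ (p - 1) - 1 := by
  have key : ∀ n : ℕ, (X - C y) * ∑ i ∈ range n, C ((y⁻¹) ^ (i + 1)) * X ^ i =
      C ((y⁻¹) ^ n) * X ^ n - 1 := by
    intro n
    induction n with
    | zero => simp
    | succ n ih =>
      rw [sum_range_succ, mul_add, ih]
      have h1 : C y * C (y⁻¹) = (1 : F[X]) := by
        rw [← C_mul, mul_inv_cancel₀ hy, C_1]
      have h2 : C ((y⁻¹) ^ (n + 1)) = C (y⁻¹) * C ((y⁻¹) ^ n) := by
        rw [← C_mul]
        congr 1
        ring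
      rw [h2]
      linear_combination (-(C ((y⁻¹) ^ n) * X ^ n)) * h1
  unfold Py
  rw [key]
  have : (y⁻¹) ^ (p - 1) = 1 := by rw [inv_pow, hyp, inv_one]
  rw [this, C_1, one_mul]

lemma Py_coeff (p : ℕ) (y : F) (j : ℕ) (hj : j < p - 1) : (Py p y).coeff j = (y⁻¹) ^ (j + 1) := by
  unfold Py
  rw [finsetSum_coeff]
  simp only [coeff_C_mul, coeff_X_pow]
  rw [sum_eq_single j]
  · simp
  · intro b _ hb
    rw [if_neg (Ne.symm hb), mul_zero]
  · intro h
    exact absurd (mem_range.2 hj) h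

/-- the function `Lam` attached to values `g` on `ℤ/p` -/
noncomputable def LamG (p : ℕ) [Fact p.Prime] [CharP F p] (g : ZMod p → F) : F[X] :=
  ∑ y ∈ univ.erase (0 : ZMod p), C (g y) * Py p (ZMod.castHom (dvd_refl p) F y)

lemma natDegree_LamG (p : ℕ) [hp : Fact p.Prime] [CharP F p] (hp3 : 3 ≤ p) (g : ZMod p → F) :
    (LamG p g).natDegree < p - 1 := by
  have h1 : (LamG p g).natDegree ≤ p - 2 := by
    unfold LamG Py
    refine natDegree_sum_le_of_forall_le _ _ fun y _ => ?_
    refine le_trans (natDegree_C_mul_le _ _) ?_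
    refine natDegree_sum_le_of_forall_le _ _ fun i hi => ?_
    rw [mem_range] at hi
    refine le_trans (natDegree_C_mul_X_pow_le _ _) ?_
    omega
  omega

lemma castHom_ne {p : ℕ} [hp : Fact p.Prime] [CharP F p] {y : ZMod p} (hy : y ≠ 0) :
    ZMod.castHom (dvd_refl p) F y ≠ 0 := by
  intro h
  exact hy ((ZMod.castHom (dvd_refl p) F).injective (by rw [h, map_zero]))

lemma castHom_pow {p : ℕ} [hp : Fact p.Prime] [CharP F p] {y : ZMod p} (hy : y ≠ 0) :
    (ZMod.castHom (dvd_refl p) F y) ^ (p - 1) = 1 := by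
  rw [← map_pow, ZMod.pow_card_sub_one_eq_one hy, map_one]

lemma aux1 {K : Type*} [Field K] (a b c : K) : a⁻¹ * b / c = b / (a * c) := by
  rw [inv_mul_eq_div, div_div]

lemma aux2 {K : Type*} [Field K] (a b : K) {c : K} (hc : c ≠ 0) : a * b = c * b * (a / c) := by
  field_simp

/-- **`LamOK`** from the jumps of `g` -/
theorem lamOK_of_jump (p q : ℕ) [hp : Fact p.Prime] [CharP F p] (hp3 : 3 ≤ p) (hq : q < p)
    (hq0 : 0 < q) (W : ℕ → F) (g : ZMod p → F) (hg0 : g 0 = 0)
    (hg : ∀ y : ZMod p, (q : F) * (g (y + 1) - g y) =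
      ∑ h ∈ Ioo 0 q, (if ((h : ℕ) : ZMod p) = -((q : ℕ) : ZMod p) * y then W h else 0)) :
    H22GW.LamOK p q W (LamG p g) := by
  classical
  refine ⟨natDegree_LamG p hp3 g, ?_⟩
  set ι := ZMod.castHom (dvd_refl p) F with hι
  have hqp : ((q : ℕ) : ZMod p) ≠ 0 := by
    intro h
    rw [ZMod.natCast_eq_zero_iff] at h
    exact absurd (Nat.le_of_dvd hq0 h) (by omega)
  have hqF : (q : F) ≠ 0 := by
    have := castHom_ne (F := F) hqp
    rwa [map_natCast] at this
  let K := FractionRing (F[X])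
  let φ : F[X] →+* K := algebraMap F[X] K
  have hφinj : Function.Injective φ := IsFractionRing.injective F[X] K
  apply hφinj
  set x : K := φ X with hx
  have hlin : ∀ a b : F, a ≠ 0 → φ (C a * X + C b) ≠ 0 := by
    intro a b ha h
    have h1 : C a * X + C b = (0 : F[X]) := hφinj (by rw [h, map_zero])
    have h2 := congrArg (fun r : F[X] => r.coeff 1) h1
    simp at h2
    exact ha h2
  have hxy : ∀ y : F, x - φ (C y) ≠ 0 := by
    intro y h
    apply hlin 1 (-y) one_ne_zero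
    rw [map_add, map_mul, C_1, map_one, one_mul, C_neg, map_neg, ← sub_eq_add_neg]
    exact h
  have hxy1 : ∀ y : F, x + 1 - φ (C y) ≠ 0 := by
    intro y h
    apply hxy (y - 1)
    rw [C_sub, C_1, map_sub, map_one]
    rw [← h]
    ring
  set A : K := φ (X ^ (p - 1) - 1) with hA
  set B : K := φ ((X + 1) ^ (p - 1) - 1) with hB
  -- values of `Py`
  have hPy : ∀ y : ZMod p, y ≠ 0 → φ (Py p (ι y)) = A / (x - φ (C (ι y))) := by
    intro y hy
    rw [eq_div_iff (hxy _), hA, ← Py_mul p (castHom_ne hy) (castHom_pow hy), map_mul, map_sub]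
    ring
  have hPy1 : ∀ y : ZMod p, y ≠ 0 → φ ((Py p (ι y)).comp (X + 1)) = B / (x + 1 - φ (C (ι y))) := by
    intro y hy
    rw [eq_div_iff (hxy1 _), hB]
    have h1 := congrArg (fun r : F[X] => r.comp (X + 1)) (Py_mul p (castHom_ne (F := F) hy)
      (castHom_pow hy))
    simp only [mul_comp, sub_comp, X_comp, C_comp, pow_comp, one_comp] at h1
    rw [← h1, map_mul, map_sub, map_add, map_one]
    ring
  have hL : φ (LamG p g) = A * ∑ y : ZMod p, φ (C (g y)) / (x - φ (C (ι y))) := by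
    unfold LamG
    rw [map_sum, mul_sum, ← add_sum_erase univ (fun y => A * (φ (C (g y)) / (x - φ (C (ι y)))))
      (mem_univ (0 : ZMod p)), hg0, C_0, map_zero, zero_div, mul_zero, zero_add]
    refine sum_congr rfl fun y hy => ?_
    rw [map_mul, hPy y (ne_of_mem_erase hy)]
    ring
  have hL1 : φ ((LamG p g).comp (X + 1)) = B * ∑ y : ZMod p, φ (C (g y)) / (x + 1 - φ (C (ι y))) := by
    unfold LamG
    have hsc : (∑ y ∈ univ.erase (0 : ZMod p), C (g y) * Py p (ZMod.castHom (dvd_refl p) F y)).comp (X + 1) = ∑ y ∈ univ.erase (0 : ZMod p), (C (g y) * Py p (ZMod.castHom (dvd_refl p) F y)).comp (X + 1) := by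
      simp only [Polynomial.comp]
      rw [eval₂_finsetSum]
    rw [hsc, map_sum, mul_sum, ← add_sum_erase univ
      (fun y => B * (φ (C (g y)) / (x + 1 - φ (C (ι y))))) (mem_univ (0 : ZMod p)), hg0, C_0,
      map_zero, zero_div, mul_zero, zero_add]
    refine sum_congr rfl fun y hy => ?_
    rw [mul_comp, C_comp, map_mul, hPy1 y (ne_of_mem_erase hy)]
    ring
  have hshift : ∑ y : ZMod p, φ (C (g y)) / (x + 1 - φ (C (ι y))) =
      ∑ y : ZMod p, φ (C (g (y + 1))) / (x - φ (C (ι y))) := by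
    symm
    refine Fintype.sum_equiv (Equiv.addRight (1 : ZMod p)) _ _ fun y => ?_
    rw [Equiv.coe_addRight, map_add ι, map_one, C_add, C_1, map_add φ, map_one]
    congr 1
    ring
  have hdiff : ∑ y : ZMod p, φ (C (g (y + 1))) / (x - φ (C (ι y))) -
      ∑ y : ZMod p, φ (C (g y)) / (x - φ (C (ι y))) =
      ∑ h ∈ Ioo 0 q, φ (C (W h)) / (φ (C (q : F) * X + C (h : F))) := by
    rw [← sum_sub_distrib]
    have h1 : ∀ y : ZMod p, φ (C (g (y + 1))) / (x - φ (C (ι y))) -
        φ (C (g y)) / (x - φ (C (ι y))) =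
        ∑ h ∈ Ioo 0 q, (if ((h : ℕ) : ZMod p) = -((q : ℕ) : ZMod p) * y then
          φ (C (W h)) / (φ (C (q : F) * X + C (h : F))) else 0) := by
      intro y
      rw [← sub_div, ← map_sub, ← C_sub]
      have h2 : φ (C (g (y + 1) - g y)) = (φ (C (q : F)))⁻¹ * ∑ h ∈ Ioo 0 q,
          (if ((h : ℕ) : ZMod p) = -((q : ℕ) : ZMod p) * y then φ (C (W h)) else 0) := by
        have hqK : φ (C (q : F)) ≠ 0 := by
          intro h
          have h3 : (C (q : F) : F[X]) = 0 := hφinj (by rw [h, map_zero])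
          exact hqF (C_eq_zero.1 h3)
        rw [eq_inv_mul_iff_mul_eq₀ hqK, ← map_mul, ← C_mul, hg y, map_sum C, map_sum φ]
        refine sum_congr rfl fun h _ => ?_
        split_ifs <;> simp
      rw [h2, mul_sum, sum_div]
      refine sum_congr rfl fun h _ => ?_
      by_cases h3 : ((h : ℕ) : ZMod p) = -((q : ℕ) : ZMod p) * y
      · rw [if_pos h3, if_pos h3]
        have h4 : (h : F) = -(q : F) * ι y := by
          have h5 := congrArg ι h3
          rw [map_mul, map_neg, map_natCast, map_natCast] at h5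
          exact h5
        have h5 : φ (C (q : F) * X + C (h : F)) = φ (C (q : F)) * (x - φ (C (ι y))) := by
          rw [h4, map_add, map_mul, C_mul, C_neg, map_mul, map_neg]
          ring
        rw [h5]
        have hqK : φ (C (q : F)) ≠ 0 := by
          intro h
          have h3 : (C (q : F) : F[X]) = 0 := hφinj (by rw [h, map_zero])
          exact hqF (C_eq_zero.1 h3)
        exact aux1 _ _ _
      · rw [if_neg h3, if_neg h3]
        simp
    rw [sum_congr rfl fun y _ => h1 y, sum_comm]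
    refine sum_congr rfl fun h _ => ?_
    rw [sum_eq_single (-((q : ZMod p))⁻¹ * (h : ZMod p))]
    · rw [if_pos]
      field_simp
    · intro y _ hy
      rw [if_neg]
      intro h3
      apply hy
      rw [h3]
      field_simp
    · intro h3
      exact absurd (mem_univ _) h3
  have hnq : φ (H22GW.nq q W) = φ (H22GW.dq F q) *
      ∑ h ∈ Ioo 0 q, φ (C (W h)) / (φ (C (q : F) * X + C (h : F))) := by
    unfold H22GW.nq H22GW.dq
    rw [map_sum, mul_sum]
    refine sum_congr rfl fun h hh => ?_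
    rw [← mul_prod_erase _ _ hh, map_mul, map_mul]
    exact aux2 _ _ (hlin (q : F) (h : F) hqF)
  rw [map_mul, map_mul, map_mul, map_sub, map_mul, map_mul, ← hA, ← hB, hnq, hL, hL1, hshift,
    ← hdiff]
  ring

lemma coeff_LamG (p : ℕ) [hp : Fact p.Prime] [CharP F p] (g : ZMod p → F) (j : ℕ)
    (hj : j < p - 1) : (LamG p g).coeff j =
      ∑ y ∈ univ.erase (0 : ZMod p), g y * ((ZMod.castHom (dvd_refl p) F y)⁻¹) ^ (j + 1) := by
  unfold LamG
  rw [finsetSum_coeff]
  refine sum_congr rfl fun y _ => ?_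
  rw [coeff_C_mul, Py_coeff p _ j hj]

lemma sum_inv_pow (p : ℕ) [hp : Fact p.Prime] [CharP F p] (j : ℕ) (hj0 : 0 < j)
    (hj : j < p - 1) :
    ∑ y ∈ univ.erase (0 : ZMod p), ((ZMod.castHom (dvd_refl p) F y)⁻¹) ^ j = 0 := by
  have h1 : ∑ y ∈ univ.erase (0 : ZMod p), ((ZMod.castHom (dvd_refl p) F y)⁻¹) ^ j =
      ∑ y : ZMod p, ((ZMod.castHom (dvd_refl p) F y)⁻¹) ^ j := by
    rw [← add_sum_erase univ _ (mem_univ (0 : ZMod p)), map_zero, inv_zero, zero_pow hj0.ne',
      zero_add]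
  have h2 : ∑ y : ZMod p, ((ZMod.castHom (dvd_refl p) F y)⁻¹) ^ j =
      ZMod.castHom (dvd_refl p) F (∑ y : ZMod p, y ^ j) := by
    rw [map_sum]
    refine Fintype.sum_equiv (Equiv.inv (ZMod p)) _ _ fun y => ?_
    rw [Equiv.inv_apply, map_pow, map_inv₀]
  rw [h1, h2, FiniteField.sum_pow_lt_card_sub_one (ZMod p) j (by rw [ZMod.card]; exact hj),
    map_zero]

lemma sum_units {M : Type*} [AddCommMonoid M] (m : ℕ) [NeZero m] (A : ℕ → M) :
    ∑ t : (ZMod m)ˣ, A t.val.val = ∑ t ∈ (range m).filter (fun t => Nat.Coprime t m), A t := by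
  refine Finset.sum_bij (fun t _ => t.val.val) ?_ ?_ ?_ ?_
  · intro t _
    exact mem_filter.2 ⟨mem_range.2 (ZMod.val_lt _), ZMod.val_coe_unit_coprime t⟩
  · intro t _ s _ h
    exact Units.ext (ZMod.val_injective m h)
  · intro t ht
    rw [mem_filter, mem_range] at ht
    refine ⟨ZMod.unitOfCoprime t ht.2, mem_univ _, ?_⟩
    rw [ZMod.coe_unitOfCoprime, ZMod.val_natCast, Nat.mod_eq_of_lt ht.1]
  · intro t _
    rfl

lemma psi_unitsMap {f p : ℕ} [NeZero (f * p)] (ψ : (ZMod f)ˣ →* Fˣ) (t : (ZMod (f * p))ˣ) :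
    (ψ (ZMod.unitsMap (dvd_mul_right f p) t) : F) =
      MulChar.ofUnitHom ψ ((t.val.val : ℕ) : ZMod f) := by
  have h1 : ((t.val.val : ℕ) : ZMod f) = (ZMod.unitsMap (dvd_mul_right f p) t : ZMod f) := by
    rw [ZMod.unitsMap_def, Units.coe_map]
    have h2 : (ZMod.castHom (dvd_mul_right f p) (ZMod f)) (t : ZMod (f * p)) =
        ((t.val.val : ℕ) : ZMod f) := by
      conv_lhs => rw [← ZMod.natCast_zmod_val (t : ZMod (f * p))]
      rw [map_natCast]
    exact h2.symm
  rw [h1, MulChar.ofUnitHom_coe]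

/-- the moments of `G` -/
theorem sum_GG (f p c j : ℕ) [hp : Fact p.Prime] [CharP F p] [NeZero (f * p)]
    (hfp : Nat.Coprime f p) (ψ : (ZMod f)ˣ →* Fˣ) :
    ∑ y ∈ univ.erase (0 : ZMod p), GG f p c (MulChar.ofUnitHom ψ) y *
      ((ZMod.castHom (dvd_refl p) F y)⁻¹) ^ j = (f : F) ^ j * beta F f p c j ψ := by
  classical
  set X := MulChar.ofUnitHom ψ with hX
  set m := f * p with hm
  set ι := ZMod.castHom (dvd_refl p) F with hι
  have hfp0 : ((f : ℕ) : ZMod p) ≠ 0 := by
    intro h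
    rw [ZMod.natCast_eq_zero_iff] at h
    have h1 := Nat.Coprime.eq_one_of_dvd hfp.symm h
    exact hp.out.one_lt.ne' h1
  have hfF : (f : F) ≠ 0 := by
    have := castHom_ne (F := F) hfp0
    rwa [map_natCast] at this
  have h1 : ∑ y ∈ univ.erase (0 : ZMod p), GG f p c X y * ((ι y)⁻¹) ^ j =
      ∑ t ∈ range m, (if Nat.Coprime t m then ((c * t / m : ℕ) : F) * X ((t : ℕ) : ZMod f) *
        ((f : F) * ((t : F))⁻¹) ^ j else 0) := by
    unfold GG
    rw [← hm]
    simp only [sum_mul]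
    rw [sum_comm]
    refine sum_congr rfl fun t _ => ?_
    by_cases hpt : p ∣ t
    · rw [if_neg]
      · refine sum_eq_zero fun y hy => ?_
        rw [if_neg, zero_mul]
        intro h2
        have h3 : ((t : ℕ) : ZMod p) = 0 := (ZMod.natCast_eq_zero_iff _ _).2 hpt
        rw [h3] at h2
        exact (mul_ne_zero hfp0 (ne_of_mem_erase hy)) h2.symm
      · intro h2
        have h3 : p ∣ Nat.gcd t m := Nat.dvd_gcd hpt (dvd_mul_left p f)
        rw [h2] at h3
        exact hp.out.one_lt.ne' (Nat.dvd_one.1 h3)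
    · have ht0 : ((t : ℕ) : ZMod p) ≠ 0 := fun h => hpt ((ZMod.natCast_eq_zero_iff _ _).1 h)
      by_cases hft : Nat.Coprime t f
      · have hcop : Nat.Coprime t m := by
          rw [hm]
          exact Nat.Coprime.mul_right hft ((Nat.Prime.coprime_iff_not_dvd hp.out).2 hpt).symm
        rw [if_pos hcop, sum_eq_single ((f : ZMod p)⁻¹ * t)]
        · rw [if_pos (by field_simp)]
          congr 2
          rw [map_mul, map_inv₀, map_natCast, map_natCast, mul_inv, inv_inv]
        · intro y _ hy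
          rw [if_neg, zero_mul]
          intro h2
          apply hy
          rw [h2]
          field_simp
        · intro h2
          exact absurd (mem_erase.2 ⟨mul_ne_zero (inv_ne_zero hfp0) ht0, mem_univ _⟩) h2
      · have hcop : ¬ Nat.Coprime t m := by
          intro h2
          exact hft (Nat.Coprime.coprime_dvd_right (dvd_mul_right f p) h2)
        rw [if_neg hcop]
        have hXt : X ((t : ℕ) : ZMod f) = 0 := by
          apply MulChar.map_nonunit
          rw [ZMod.isUnit_iff_coprime]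
          exact hft
        refine sum_eq_zero fun y _ => ?_
        rw [hXt, mul_zero, ite_self, zero_mul]
  rw [h1, ← sum_filter, beta, mul_sum]
  have h2 : ∀ t : (ZMod (f * p))ˣ, (f : F) ^ j * (((c * t.val.val / (f * p) : ℕ) : F) *
      ((t.val.val : F)⁻¹) ^ j * (ψ (ZMod.unitsMap (dvd_mul_right f p) t) : F)) =
      (fun s : ℕ => ((c * s / m : ℕ) : F) * X ((s : ℕ) : ZMod f) *
        ((f : F) * ((s : F))⁻¹) ^ j) t.val.val := by
    intro t
    rw [psi_unitsMap ψ t, ← hX]
    simp only [← hm, mul_pow]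
    ring
  rw [sum_congr rfl fun t _ => h2 t]
  exact (sum_units m _).symm

lemma map_ofUnitHom {R : Type*} [CommRing R] {f : ℕ} (φ : R →+* F) (ψ₀ : (ZMod f)ˣ →* Rˣ)
    (a : ZMod f) : φ (MulChar.ofUnitHom ψ₀ a) =
      MulChar.ofUnitHom ((Units.map (φ : R →* F)).comp ψ₀) a := by
  classical
  by_cases ha : IsUnit a
  · obtain ⟨u, rfl⟩ := ha
    rw [MulChar.ofUnitHom_coe, MulChar.ofUnitHom_coe]
    rfl
  · rw [MulChar.map_nonunit _ ha, MulChar.map_nonunit _ ha, map_zero]

/-- **The bridge**: if the moments `β_(j+1)(ψ)` of the relevant parity vanish in the window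
`w ≤ j < V`, then `p` is bad for the window in the sense of the gap theorem with weights
`ψ(h) (1 - c [c ∣ h])` of period `c f`. -/
theorem badW_of_beta (E : Type*) [Field E] [NumberField E] (f c p : ℕ) [hp : Fact p.Prime]
    [NeZero (f * p)] (hc : c.Prime) (hcf : ¬ c ∣ f) (hf : 2 ≤ f) (hcp : c * f < p)
    (ψ₀ : (ZMod f)ˣ →* (𝓞 E)ˣ) (k : Type) [Field k] [CharP k p] (φ : 𝓞 E →+* k) (w V : ℕ)
    (hV : V + 1 < p)
    (h : ∀ j, w ≤ j → j < V → ((ψ₀ (-1) : (𝓞 E)ˣ) : 𝓞 E) = (-1) ^ j →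
      beta k f p c (j + 1) ((Units.map (φ : 𝓞 E →* k)).comp ψ₀) = 0) :
    H22GW.BadW E (c * f) (wt f c (MulChar.ofUnitHom ψ₀)) w V p := by
  classical
  set ψ := (Units.map (φ : 𝓞 E →* k)).comp ψ₀ with hψ
  set X := MulChar.ofUnitHom ψ with hX
  have hf0 : 0 < f := by omega
  have hc2 := hc.two_le
  have hfcf : f ≤ c * f := Nat.le_mul_of_pos_left f hc.pos
  have hccf : c ≤ c * f := Nat.le_mul_of_pos_right c hf0
  have hp3 : 3 ≤ p := by omega
  have hfp : Nat.Coprime f p := by
    refine (Nat.coprime_comm.1 ((Nat.Prime.coprime_iff_not_dvd hp.out).2 ?_))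
    intro h2
    exact absurd (Nat.le_of_dvd hf0 h2) (by omega)
  have hcop : Nat.Coprime c (f * p) := by
    refine Nat.Coprime.mul_right ((Nat.Prime.coprime_iff_not_dvd hc).2 hcf) ?_
    exact (Nat.coprime_primes hc hp.out).2 (by omega)
  have hq0 : 0 < c * f := Nat.mul_pos hc.pos hf0
  have hqk : ((c * f : ℕ) : k) ≠ 0 := by
    intro h2
    rw [CharP.cast_eq_zero_iff k p] at h2
    exact absurd (Nat.le_of_dvd hq0 h2) (by omega)
  have h2k : (2 : k) ≠ 0 := by
    intro h2
    have h3 : ((2 : ℕ) : k) = 0 := by exact_mod_cast h2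
    rw [CharP.cast_eq_zero_iff k p] at h3
    exact absurd (Nat.le_of_dvd (by norm_num) h3) (by omega)
  -- all moments vanish
  have hall : ∀ j, w ≤ j → j < V → beta k f p c (j + 1) ψ = 0 := by
    intro j hj1 hj2
    by_cases hpar : ((ψ₀ (-1) : (𝓞 E)ˣ) : 𝓞 E) = (-1) ^ j
    · exact h j hj1 hj2 hpar
    · apply beta_parity (k := k) c (j + 1) hcop hfp
      · intro h3
        exact absurd (Nat.le_of_dvd (by omega) h3) (by omega)
      · exact h2k
      · have h3 : ((ψ₀ (-1) : (𝓞 E)ˣ) : 𝓞 E) ^ 2 = 1 := by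
          rw [← Units.val_pow_eq_pow_val, ← map_pow]
          simp
        have h4 : ((ψ₀ (-1) : (𝓞 E)ˣ) : 𝓞 E) = (-1) ^ (j + 1) := by
          rcases sq_eq_one_iff.1 h3 with h5 | h5
          · rcases neg_one_pow_eq_or (𝓞 E) j with h6 | h6
            · exact absurd (h5.trans h6.symm) hpar
            · rw [h5, pow_succ, h6]
              ring
          · rcases neg_one_pow_eq_or (𝓞 E) j with h6 | h6
            · rw [h5, pow_succ, h6]
              ring
            · exact absurd (h5.trans h6.symm) hpar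
        have h5 : (ψ (-1) : k) = φ ((ψ₀ (-1) : (𝓞 E)ˣ) : 𝓞 E) := rfl
        rw [h5, h4, map_pow, map_neg, map_one]
  set κ : k := X (-1) * X ((c : ℕ) : ZMod f) with hκ
  set g : ZMod p → k := fun y => ((c * f : ℕ) : k)⁻¹ * (κ * (GG f p c X y - GG f p c X 0)) with hg
  refine ⟨k, inferInstance, inferInstance, φ, LamG p g, ?_, ?_⟩
  · have hwt : (fun h => φ (wt f c (MulChar.ofUnitHom ψ₀) h)) = wt f c X := by
      funext h
      unfold wt
      rw [map_mul, map_ofUnitHom, map_sub, map_one]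
      congr 2
      split_ifs
      · rw [map_natCast]
      · rw [map_zero]
    rw [hwt]
    apply lamOK_of_jump p (c * f) hp3 hcp hq0
    · simp [hg]
    · intro y
      have h3 := GG_step f p c hc hcf hcp hf X y
      rw [← h3, hg]
      field_simp
      ring
  · intro j hj1 hj2
    rw [coeff_LamG p g j (by omega)]
    have h3 := sum_GG (F := k) f p c (j + 1) hfp ψ
    rw [hall j hj1 hj2, mul_zero, ← hX] at h3
    have h4 := sum_inv_pow (F := k) p (j + 1) (by omega) (by omega)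
    have h5 : ∀ y ∈ univ.erase (0 : ZMod p), g y * ((ZMod.castHom (dvd_refl p) k y)⁻¹) ^ (j + 1) =
        ((c * f : ℕ) : k)⁻¹ * κ * (GG f p c X y * ((ZMod.castHom (dvd_refl p) k y)⁻¹) ^ (j + 1)) -
        ((c * f : ℕ) : k)⁻¹ * κ * GG f p c X 0 * ((ZMod.castHom (dvd_refl p) k y)⁻¹) ^ (j + 1) := by
      intro y _
      rw [hg]
      ring
    rw [sum_congr rfl h5, sum_sub_distrib, ← mul_sum, ← mul_sum, h3, h4]
    ring

/-- some weight is nonzero -/
lemma exists_wt_ne (E : Type*) [Field E] [NumberField E] (f c : ℕ) (hc : c.Prime) (hf : 2 ≤ f)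
    (ψ₀ : (ZMod f)ˣ →* (𝓞 E)ˣ) :
    ∃ h, 0 < h ∧ h < c * f ∧ wt f c (MulChar.ofUnitHom ψ₀) h ≠ 0 := by
  refine ⟨1, one_pos, ?_, ?_⟩
  · have := hc.two_le
    nlinarith
  · unfold wt
    rw [if_neg (fun h => hc.one_lt.ne' (Nat.dvd_one.1 h)), Nat.cast_one, map_one]
    simp

end H99AB
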