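import Pool.Agent.H9.AB.RelA
import Pool.Agent.H59.AB.Inst
import Pool.Agent.H22.GW.Gap

/-!
Project AB, D1 (concrete half): from the twisted Kummer relations (`H9AB.twisted_kummer`), the
abstract theorem (`H59AB.null_AB`) and the gap theorem (`H22GW.gapW`) to the symmetry
`T ↦ 1/T`, `g ↦ -g` of the residues of a first case solution.
-/

namespace H99AB

open Polynomial NumberField H9FC H9AB H59AB Finset Pool.Agent.H71.FD

universe u v

/-- transfer of the abstract half to arbitrary finite index sets -/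
theorem perm_of_not_bad {f c₀ n p : ℕ} [NeZero (f * p)] (hbad : ¬ ABBad f c₀ n p) {A : Type*}
    [Fintype A] (hA : Fintype.card A ≤ n) {Ω : Type} [Field Ω] [IsAlgClosed Ω] [CharP Ω p]
    (π : A → (ZMod f)ˣ) (T : A → Ω) (hT0 : ∀ x, T x ≠ 0) (hT1 : ∀ x, T x ≠ 1)
    (hrel : ∀ m : ℕ, 2 ≤ m → 2 * m + 1 ≤ p → ∀ χ : (ZMod f)ˣ →* Ωˣ,
      beta Ω f p c₀ (m + 1) χ = 0 ∨ ∑ x, ((χ (π x) : Ωˣ) : Ω) * H69FD.LL m (T x) = 0) :
    ∃ σ : Equiv.Perm A, ∀ x, π (σ x) = - π x ∧ T (σ x) * T x = 1 := by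
  classical
  set e : A ≃ Fin (Fintype.card A) := Fintype.equivFin A with he
  by_contra hcon
  apply hbad
  refine ⟨inferInstance, Fintype.card A, hA, Ω, inferInstance, inferInstance, inferInstance,
    fun v => π (e.symm v), fun v => T (e.symm v), fun v => hT0 _, fun v => hT1 _, ?_, ?_⟩
  · intro m hm hmp χ
    rcases hrel m hm hmp χ with h1 | h1
    · exact Or.inl h1
    · right
      rw [← h1]
      exact Equiv.sum_comp e.symm (fun x : A => ((χ (π x) : Ωˣ) : Ω) * H69FD.LL m (T x))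
  · rintro ⟨σ, hσ⟩
    apply hcon
    refine ⟨(e.trans σ).trans e.symm, fun x => ?_⟩
    have h1 := hσ (e x)
    simp only [Equiv.symm_apply_apply] at h1
    exact h1

/-- transfer of the abstract half to arbitrary finite index sets, even characters -/
theorem perm_of_not_badE {f c₀ n p : ℕ} [NeZero (f * p)] (hbad : ¬ ABBadE f c₀ n p) {A : Type*}
    [Fintype A] (hA : Fintype.card A ≤ n) {Ω : Type} [Field Ω] [IsAlgClosed Ω] [CharP Ω p]
    (π : A → (ZMod f)ˣ) (T : A → Ω) (hT0 : ∀ x, T x ≠ 0) (hT1 : ∀ x, T x ≠ 1)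
    (hrel : ∀ m : ℕ, Even m → 2 ≤ m → 2 * m + 1 ≤ p → ∀ χ : (ZMod f)ˣ →* Ωˣ, χ (-1) = 1 →
      beta Ω f p c₀ (m + 1) χ = 0 ∨ ∑ x, ((χ (π x) : Ωˣ) : Ω) * H69FD.LL m (T x) = 0) :
    ∃ σ : Equiv.Perm A, ∀ x, (π (σ x) = π x ∨ π (σ x) = - π x) ∧ T (σ x) * T x = 1 := by
  classical
  set e : A ≃ Fin (Fintype.card A) := Fintype.equivFin A with he
  by_contra hcon
  apply hbad
  refine ⟨inferInstance, Fintype.card A, hA, Ω, inferInstance, inferInstance, inferInstance,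
    fun v => π (e.symm v), fun v => T (e.symm v), fun v => hT0 _, fun v => hT1 _, ?_, ?_⟩
  · intro m hev hm hmp χ hχ
    rcases hrel m hev hm hmp χ hχ with h1 | h1
    · exact Or.inl h1
    · right
      rw [← h1]
      exact Equiv.sum_comp e.symm (fun x : A => ((χ (π x) : Ωˣ) : Ω) * H69FD.LL m (T x))
  · rintro ⟨σ, hσ⟩
    apply hcon
    refine ⟨(e.trans σ).trans e.symm, fun x => ?_⟩
    have h1 := hσ (e x)
    simp only [Equiv.symm_apply_apply] at h1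
    exact h1

lemma ne_zero_of_unit {K : Type*} [Field K] [NumberField K] {p : ℕ} {x : 𝓞 K}
    (hx : ∀ P : Ideal (𝓞 K), P.IsPrime → (p : 𝓞 K) ∈ P → x ∉ P) {Ω : Type*} [Field Ω] [CharP Ω p]
    (ψ : 𝓞 K →+* Ω) : ψ x ≠ 0 := by
  intro h0
  refine hx (RingHom.ker ψ) (RingHom.ker_isPrime _) ?_ h0
  rw [RingHom.mem_ker, map_natCast, CharP.cast_eq_zero]

/-- **Symmetry of the residues of a first case solution**, one type, one prime. -/
theorem sym_of_not_bad (f p c₀ n : ℕ) [NeZero f] [NeZero (f * p)] [hp : Fact p.Prime]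
    (hp2 : p ≠ 2) (hpf : ¬ p ∣ f) (hc₀ : 1 ≤ c₀) (hc₀' : c₀ < f * p)
    (L : Type u) [Field L] [NumberField L] [IsCyclotomicExtension {f} ℚ L]
    (K : Type v) [Field K] [NumberField K] [Algebra L K] (hd : Module.finrank L K < p)
    (hn : f.totient * Module.finrank L K ≤ n)
    (a b c : 𝓞 K) (h : FSol K p a b c)
    (ha : ∀ P : Ideal (𝓞 K), P.IsPrime → (p : 𝓞 K) ∈ P → a ∉ P)
    (hb : ∀ P : Ideal (𝓞 K), P.IsPrime → (p : 𝓞 K) ∈ P → b ∉ P)
    (hc : ∀ P : Ideal (𝓞 K), P.IsPrime → (p : 𝓞 K) ∈ P → c ∉ P)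
    (Ω : Type) [Field Ω] [IsAlgClosed Ω] [CharP Ω p] (w₀ : 𝓞 L →+* Ω)
    (ψ : (ZMod f)ˣ → Fin (Module.finrank L K) → (𝓞 K →+* Ω))
    (hψ : ∀ g, ∀ x y : 𝓞 K, (nfR L K x y).map (w₀.comp (actL f L g))
      = ∏ i, (C (ψ g i x) + X * C (ψ g i y)))
    (hbad : ¬ ABBad f c₀ n p) :
    ∃ σ : Equiv.Perm ((ZMod f)ˣ × Fin (Module.finrank L K)), ∀ x,
      (σ x).1 = - x.1 ∧
      (-(ψ (σ x).1 (σ x).2 b) / ψ (σ x).1 (σ x).2 a) * (-(ψ x.1 x.2 b) / ψ x.1 x.2 a) = 1 := by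
  classical
  refine perm_of_not_bad hbad (A := (ZMod f)ˣ × Fin (Module.finrank L K)) ?_ Prod.fst
    (fun x => -(ψ x.1 x.2 b) / ψ x.1 x.2 a) ?_ ?_ ?_
  · rw [Fintype.card_prod, ZMod.card_units_eq_totient, Fintype.card_fin]
    exact hn
  · exact fun x => div_ne_zero (neg_ne_zero.2 (ne_zero_of_unit hb _)) (ne_zero_of_unit ha _)
  · intro x hx
    have h1 := fsol_hom h (ψ x.1 x.2)
    have h2 := (div_eq_one_iff_eq (ne_zero_of_unit ha (ψ x.1 x.2))).1 hx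
    rw [← h2, neg_add_cancel, zero_add] at h1
    exact ne_zero_of_unit hc _ h1
  · intro m hm hmp χ
    rcases twisted_kummer f p hp2 hpf L K hd a b c h ha hc Ω w₀ ψ hψ c₀ hc₀ hc₀' (m + 1)
      (by omega) (by omega) χ with h1 | h1
    · exact Or.inl h1
    · right
      rw [Nat.add_sub_cancel] at h1
      rw [← h1, Fintype.sum_prod_type]
      refine sum_congr rfl fun g _ => ?_
      rw [mul_sum]

/-- **D1**: for every `f ≥ 2` and `d` there is a set `B` of primes of density zero such that for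
all primes `p` outside `B` and every `K ⊇ L = ℚ(ζ_f)` with `[K : L] ≤ d`, the residues of every
first case solution over `K` are symmetric under `(g, T) ↦ (-g, 1/T)`, for the types
`-b/a`, `-c/b`, `-a/c`. -/
theorem sym_rel (f : ℕ) (hf : 2 ≤ f) (d : ℕ) : ∃ B : ℕ → Prop, Null B ∧
    ∀ p : ℕ, p.Prime → ¬ B p → max f (max d 2) < p ∧ ∀ (_ : NeZero f)
    (L : Type u) [Field L] [NumberField L] [IsCyclotomicExtension {f} ℚ L]
    (K : Type v) [Field K] [NumberField K] [Algebra L K], Module.finrank L K ≤ d →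
    ∀ a b c : 𝓞 K, FSol K p a b c →
    (∀ P : Ideal (𝓞 K), P.IsPrime → (p : 𝓞 K) ∈ P → a ∉ P) →
    (∀ P : Ideal (𝓞 K), P.IsPrime → (p : 𝓞 K) ∈ P → b ∉ P) →
    (∀ P : Ideal (𝓞 K), P.IsPrime → (p : 𝓞 K) ∈ P → c ∉ P) →
    ∀ (Ω : Type) [Field Ω] [IsAlgClosed Ω] [CharP Ω p] (w₀ : 𝓞 L →+* Ω)
    (ψ : (ZMod f)ˣ → Fin (Module.finrank L K) → (𝓞 K →+* Ω)),
    (∀ g, ∀ x y : 𝓞 K, (nfR L K x y).map (w₀.comp (actL f L g))
      = ∏ i, (C (ψ g i x) + X * C (ψ g i y))) →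
    (∃ σ : Equiv.Perm ((ZMod f)ˣ × Fin (Module.finrank L K)), ∀ x,
      (σ x).1 = - x.1 ∧
      (-(ψ (σ x).1 (σ x).2 b) / ψ (σ x).1 (σ x).2 a) * (-(ψ x.1 x.2 b) / ψ x.1 x.2 a) = 1) ∧
    (∃ σ : Equiv.Perm ((ZMod f)ˣ × Fin (Module.finrank L K)), ∀ x,
      (σ x).1 = - x.1 ∧
      (-(ψ (σ x).1 (σ x).2 c) / ψ (σ x).1 (σ x).2 b) * (-(ψ x.1 x.2 c) / ψ x.1 x.2 b) = 1) ∧
    (∃ σ : Equiv.Perm ((ZMod f)ˣ × Fin (Module.finrank L K)), ∀ x,
      (σ x).1 = - x.1 ∧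
      (-(ψ (σ x).1 (σ x).2 a) / ψ (σ x).1 (σ x).2 c) * (-(ψ x.1 x.2 a) / ψ x.1 x.2 c) = 1) := by
  obtain ⟨c₀, hc₀, hc₀p⟩ := Nat.exists_infinite_primes (f + 1)
  have hc₀f : ¬ c₀ ∣ f := fun h => absurd (Nat.le_of_dvd (by omega) h) (by omega)
  refine ⟨fun p => ABBad f c₀ (f.totient * d) p ∨ p ≤ max c₀ (max f (max d 2)), ?_, ?_⟩
  · refine Null.or (null_AB (fun k _ _ => H22GW.gapW k) hc₀p hc₀f hf _) ?_
    exact UD_of_bounded _ fun p _ hp => hp
  · intro p hp hB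
    push Not at hB
    obtain ⟨hbad, hlt⟩ := hB
    have h1 : c₀ < p := lt_of_le_of_lt (le_max_left _ _) hlt
    have h2 : max f (max d 2) < p := lt_of_le_of_lt (le_max_right _ _) hlt
    have h3 : f < p := lt_of_le_of_lt (le_max_left _ _) h2
    have h4 : d < p := lt_of_le_of_lt (le_trans (le_max_left _ _) (le_max_right _ _)) h2
    have h5 : 2 < p := lt_of_le_of_lt (le_trans (le_max_right _ _) (le_max_right _ _)) h2
    refine ⟨h2, ?_⟩
    intro hfne L _ _ _ K _ _ _ hd a b c h ha hb hc Ω _ _ _ w₀ ψ hψ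
    have : Fact p.Prime := ⟨hp⟩
    have hfp : NeZero (f * p) := ⟨Nat.mul_ne_zero (by omega) hp.ne_zero⟩
    have hpf : ¬ p ∣ f := fun h => absurd (Nat.le_of_dvd (by omega) h) (by omega)
    have hc₀' : c₀ < f * p := lt_of_lt_of_le h1 (Nat.le_mul_of_pos_left p (by omega))
    have hdp : Module.finrank L K < p := by omega
    have hn : f.totient * Module.finrank L K ≤ f.totient * d := Nat.mul_le_mul_left _ hd
    exact ⟨sym_of_not_bad f p c₀ _ (by omega) hpf hc₀p.one_lt.le hc₀' L K hdp hn a b c h ha hb hc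
        Ω w₀ ψ hψ hbad,
      sym_of_not_bad f p c₀ _ (by omega) hpf hc₀p.one_lt.le hc₀' L K hdp hn b c a h.rot hb hc ha
        Ω w₀ ψ hψ hbad,
      sym_of_not_bad f p c₀ _ (by omega) hpf hc₀p.one_lt.le hc₀' L K hdp hn c a b h.rot.rot hc ha
        hb Ω w₀ ψ hψ hbad⟩

end H99AB
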