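import Mathlib

/-!
Project AB: the elements `T_b` of the Stickelberger relations sum up to `⌊c t / m⌋`; the moments
of `⌊c t / m⌋` against a function on `ℤ/f` and their parity.
-/

namespace H99AB

open Finset

/-- `∑_{1 ≤ b < c} [m < t + (b t mod m)] = ⌊c t / m⌋` for `t` prime to `m`, `0 < t < m`, `c ≤ m - 1` -/
lemma sum_TM (m t : ℕ) (ht : t < m) (hcop : Nat.Coprime t m) (c : ℕ) (hc : 1 ≤ c) (hcm : c < m) :
    ∑ b ∈ Ico 1 c, (if m < t + (b * t) % m then 1 else 0) = c * t / m := by
  induction c, hc using Nat.le_induction with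
  | base => simp [Nat.div_eq_of_lt ht]
  | succ c hc ih =>
    rw [sum_Ico_succ_top hc, ih (by omega)]
    have hm : 0 < m := by omega
    have h1 : (c + 1) * t / m = c * t / m + (if m ≤ (c * t) % m + t then 1 else 0) := by
      rw [Nat.add_mul, one_mul, Nat.add_div hm, Nat.div_eq_of_lt ht, Nat.mod_eq_of_lt ht]
      simp
    rw [h1]
    congr 1
    have h2 : (c * t) % m + t ≠ m := by
      intro h
      have h3 : m ∣ (c + 1) * t := by
        refine ⟨c * t / m + 1, ?_⟩
        have := Nat.div_add_mod (c * t) m
        calc (c + 1) * t = c * t + t := by ring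
          _ = m * (c * t / m) + (c * t % m + t) := by omega
          _ = m * (c * t / m + 1) := by rw [h]; ring
      have h4 : m ∣ c + 1 := (Nat.Coprime.dvd_of_dvd_mul_right hcop.symm h3)
      exact absurd (Nat.le_of_dvd (by omega) h4) (by omega)
    by_cases h : m < t + (c * t) % m
    · rw [if_pos h, if_pos (by omega)]
    · rw [if_neg h, if_neg (by omega)]

/-- `⌊c (m - t) / m⌋ + ⌊c t / m⌋ = c - 1` if `m` does not divide `c t` -/
lemma floor_neg (m t c : ℕ) (ht : t ≤ m) (hd : ¬ m ∣ c * t) :
    c * (m - t) / m + c * t / m + 1 = c := by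
  have hm : 0 < m := by
    rcases Nat.eq_zero_or_pos m with rfl | h
    · exact absurd (by simp [Nat.le_zero.1 ht]) hd
    · exact h
  have h1 : c * (m - t) + c * t = c * m := by
    rw [← Nat.mul_add]
    congr 1
    omega
  have h2 : c * (m - t) % m + c * t % m = m := by
    have h3 : (c * (m - t) % m + c * t % m) % m = 0 := by
      rw [← Nat.add_mod, h1, Nat.mul_mod_left]
    have h4 : 0 < c * t % m := by
      rcases Nat.eq_zero_or_pos (c * t % m) with h | h
      · exact absurd (Nat.dvd_of_mod_eq_zero h) hd
      · exact h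
    have h5 : c * t % m < m := Nat.mod_lt _ hm
    have h6 : c * (m - t) % m < m := Nat.mod_lt _ hm
    obtain ⟨k, hk⟩ := Nat.dvd_of_mod_eq_zero h3
    have : k = 1 := by
      have : k < 2 := by
        by_contra hcon
        have : m * 2 ≤ m * k := Nat.mul_le_mul_left _ (by omega)
        omega
      have : 0 < k := by
        rcases Nat.eq_zero_or_pos k with rfl | h
        · omega
        · exact h
      omega
    rw [hk, this, mul_one]
  have h3 := Nat.div_add_mod (c * (m - t)) m
  have h4 := Nat.div_add_mod (c * t) m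
  have h5 : m * (c * (m - t) / m + c * t / m + 1) = m * c := by
    calc m * (c * (m - t) / m + c * t / m + 1)
        = m * (c * (m - t) / m) + m * (c * t / m) + m := by ring
      _ = m * (c * (m - t) / m) + m * (c * t / m) + (c * (m - t) % m + c * t % m) := by rw [h2]
      _ = c * (m - t) + c * t := by omega
      _ = m * c := by rw [h1]; ring
  exact Nat.eq_of_mul_eq_mul_left hm h5

end H99AB
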