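import Pool.Agent.H99.AB.Fourier

/-!
Project AB: the values `G(y) = ∑_{t ≡ f y (p)} ⌊c t / (f p)⌋ ψ(t)` and their jumps.
-/

namespace H99AB

open Finset

lemma sum_shift {M : Type*} [AddCommMonoid M] (m f : ℕ) (hf : f ≤ m) (A : ℕ → M) :
    ∑ t ∈ range m, A t = ∑ s ∈ range m, A ((s + f) % m) := by
  rcases Nat.eq_zero_or_pos m with rfl | hm
  · simp
  have key : ∀ s, s < m → (s + f) % m = if s + f < m then s + f else s + f - m := by
    intro s hs
    split_ifs with h
    · exact Nat.mod_eq_of_lt h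
    · rw [Nat.mod_eq_sub_mod (by omega)]
      by_cases h2 : s + f - m < m
      · exact Nat.mod_eq_of_lt h2
      · omega
  have key2 : ∀ s, s < m → (s + (m - f)) % m = if f ≤ s then s - f else s + (m - f) := by
    intro s hs
    split_ifs with h
    · have h1 : s + (m - f) = (s - f) + m := by omega
      rw [h1, Nat.add_mod_right]
      exact Nat.mod_eq_of_lt (by omega)
    · exact Nat.mod_eq_of_lt (by omega)
  symm
  refine Finset.sum_nbij' (fun s => (s + f) % m) (fun t => (t + (m - f)) % m) ?_ ?_ ?_ ?_ ?_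
  · intro s _
    exact mem_range.2 (Nat.mod_lt _ hm)
  · intro s _
    exact mem_range.2 (Nat.mod_lt _ hm)
  · intro s hs
    have hs' := mem_range.1 hs
    change ((s + f) % m + (m - f)) % m = s
    rw [key s hs']
    split_ifs with h
    · rw [key2 _ h, if_pos (by omega)]
      omega
    · rw [key2 _ (by omega)]
      by_cases h3 : f ≤ s + f - m
      · rw [if_pos h3]; omega
      · rw [if_neg h3]; omega
  · intro s hs
    have hs' := mem_range.1 hs
    change ((s + (m - f)) % m + f) % m = s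
    rw [key2 s hs']
    split_ifs with h
    · rw [key _ (by omega), if_pos (by omega)]
      omega
    · by_cases h4 : s + (m - f) < m
      · rw [key _ h4, if_neg (by omega)]
        omega
      · have : f = 0 := by omega
        omega
  · intro s _
    rfl

lemma card_mul_le (m c x : ℕ) (hm : 0 < m) :
    ∑ j ∈ Icc 1 c, (if j * m ≤ x then (1 : ℤ) else 0) = min c (x / m) := by
  have h1 : ∑ j ∈ Icc 1 c, (if j * m ≤ x then (1 : ℤ) else 0) =
      (((Icc 1 c).filter fun j => j * m ≤ x).card : ℤ) := by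
    rw [card_filter]
    push_cast
    rfl
  have h2 : (Icc 1 c).filter (fun j => j * m ≤ x) = Icc 1 (min c (x / m)) := by
    ext j
    rw [mem_filter, mem_Icc, mem_Icc, le_min_iff, Nat.le_div_iff_mul_le hm]
    tauto
  rw [h1, h2, Nat.card_Icc]
  push_cast
  simp

/-- the jumps of `t ↦ ⌊c t / m⌋` under `t ↦ t + f mod m` -/
lemma floor_step (m c f s : ℕ) (hc : 0 < c) (hs : s < m) (hf : c * f ≤ m) :
    ((c * ((s + f) % m) / m : ℕ) : ℤ) - ((c * s / m : ℕ) : ℤ) =
      ∑ j ∈ Icc 1 c, (if c * s < j * m ∧ j * m ≤ c * s + c * f then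
        (1 - (if j = c then (c : ℤ) else 0)) else 0) := by
  have hm : 0 < m := by omega
  have hfm : f ≤ m := le_trans (Nat.le_mul_of_pos_left f hc) hf
  have h1 : ∀ j ∈ Icc 1 c, (if c * s < j * m ∧ j * m ≤ c * s + c * f then
        (1 - (if j = c then (c : ℤ) else 0)) else 0) =
      ((if j * m ≤ c * s + c * f then (1 : ℤ) else 0) - (if j * m ≤ c * s then (1 : ℤ) else 0)) -
        (if j = c then (if m ≤ s + f then (c : ℤ) else 0) else 0) := by
    intro j _
    by_cases hj : j = c
    · subst hj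
      have e1 : (j * s < j * m) ↔ s < m := Nat.mul_lt_mul_left hc
      have e2 : (j * m ≤ j * s + j * f) ↔ m ≤ s + f := by
        rw [← Nat.mul_add]
        exact Nat.mul_le_mul_left_iff hc
      have e3 : (j * m ≤ j * s) ↔ m ≤ s := Nat.mul_le_mul_left_iff hc
      simp only [e1, e2, e3, hs, true_and, if_true]
      rw [if_neg (by omega : ¬ m ≤ s)]
      split_ifs <;> ring
    · simp only [if_neg hj]
      by_cases h2 : j * m ≤ c * s
      · have h3 : j * m ≤ c * s + c * f := by omega
        rw [if_neg (by omega), if_pos h3, if_pos h2]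
        ring
      · rw [if_neg h2]
        by_cases h3 : j * m ≤ c * s + c * f
        · rw [if_pos ⟨by omega, h3⟩, if_pos h3]
          ring
        · rw [if_neg (by tauto), if_neg h3]
          ring
  rw [sum_congr rfl h1, sum_sub_distrib, sum_sub_distrib, card_mul_le m c _ hm,
    card_mul_le m c _ hm, sum_ite_eq' (Icc 1 c) c]
  rw [if_pos (mem_Icc.2 ⟨hc, le_refl c⟩)]
  have h3 : c * s / m < c := by
    rw [Nat.div_lt_iff_lt_mul hm]
    exact (Nat.mul_lt_mul_left hc).2 hs
  have h4 : min c (c * s / m) = c * s / m := min_eq_right h3.le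
  by_cases h5 : m ≤ s + f
  · rw [if_pos h5]
    have h6 : (s + f) % m = s + f - m := by
      rw [Nat.mod_eq_sub_mod h5]
      by_cases h7 : s + f - m < m
      · exact Nat.mod_eq_of_lt h7
      · omega
    have h7 : c * ((s + f) % m) / m = 0 := by
      rw [h6]
      apply Nat.div_eq_of_lt
      calc c * (s + f - m) < c * f := (Nat.mul_lt_mul_left hc).2 (by omega)
        _ ≤ m := hf
    have h8 : c ≤ (c * s + c * f) / m := by
      rw [Nat.le_div_iff_mul_le hm, ← Nat.mul_add]
      exact Nat.mul_le_mul_left c h5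
    rw [h7]
    have h9 : min c ((c * s + c * f) / m) = c := min_eq_left h8
    push_cast at *
    have h10 : (min (c : ℤ) ((c * s + c * f) / m)) = c := by exact_mod_cast h9
    have h11 : (min (c : ℤ) (c * s / m)) = (c * s / m : ℤ) := by exact_mod_cast h4
    rw [h10, h11]
    ring
  · rw [if_neg h5]
    have h6 : (s + f) % m = s + f := Nat.mod_eq_of_lt (by omega)
    have h7 : (c * s + c * f) / m < c := by
      rw [Nat.div_lt_iff_lt_mul hm, ← Nat.mul_add]
      exact (Nat.mul_lt_mul_left hc).2 (by omega)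
    have h8 : min c ((c * s + c * f) / m) = (c * s + c * f) / m := min_eq_right h7.le
    rw [h6]
    have h10 : (min (c : ℤ) ((c * s + c * f) / m)) = ((c * s + c * f) / m : ℤ) := by
      exact_mod_cast h8
    have h11 : (min (c : ℤ) (c * s / m)) = (c * s / m : ℤ) := by exact_mod_cast h4
    push_cast at *
    rw [h10, h11]
    have h12 : (c : ℤ) * (s + f) = c * s + c * f := by ring
    rw [h12]
    ring

variable {Ω : Type*} [Field Ω]

/-- `G(y) = ∑_{t ≡ f y (p)} ⌊c t / (f p)⌋ ψ(t)` -/
noncomputable def GG (f p c : ℕ) (X : MulChar (ZMod f) Ω) (y : ZMod p) : Ω :=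
  ∑ t ∈ range (f * p), if ((t : ℕ) : ZMod p) = (f : ZMod p) * y then
    ((c * t / (f * p) : ℕ) : Ω) * X ((t : ℕ) : ZMod f) else 0

/-- the weights `ψ(h) (1 - c [c ∣ h])` -/
def wt {R : Type*} [CommRing R] (f c : ℕ) (X : MulChar (ZMod f) R) (h : ℕ) : R :=
  X ((h : ℕ) : ZMod f) * (1 - if c ∣ h then (c : R) else 0)

lemma sum_pairs (f p c : ℕ) [hp : Fact p.Prime] (hc : c.Prime) (hcf : ¬ c ∣ f)
    (hcp : c * f < p) (hf : 0 < f) (B : ℕ → Ω) :
    ∑ q ∈ (range (f * p) ×ˢ Icc 1 c).filter (fun q => c * q.1 < q.2 * (f * p) ∧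
      q.2 * (f * p) ≤ c * q.1 + c * f), B (q.2 * (f * p) - c * q.1) =
    ∑ h ∈ Icc 1 (c * f), B h := by
  have hcpp : c ≠ p := by
    intro h
    have : c ≤ c * f := Nat.le_mul_of_pos_right c hf
    omega
  have hcop : Nat.Coprime c (f * p) := by
    refine Nat.Coprime.mul_right ((Nat.Prime.coprime_iff_not_dvd hc).2 hcf) ?_
    exact (Nat.coprime_primes hc hp.out).2 hcpp
  set m := f * p with hm
  have hm0 : 0 < m := Nat.mul_pos hf hp.out.pos
  have hcfm : c * f ≤ m := by
    have : p ≤ m := Nat.le_mul_of_pos_left p hf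
    omega
  refine Finset.sum_bij (fun q _ => q.2 * m - c * q.1) ?_ ?_ ?_ ?_
  · rintro ⟨s, j⟩ hq
    simp only [mem_filter, mem_product, mem_range, mem_Icc] at hq ⊢
    omega
  · rintro ⟨s, j⟩ hq ⟨s', j'⟩ hq' heq
    simp only [mem_filter, mem_product, mem_range, mem_Icc] at hq hq' heq
    have h1 : (j : ℤ) * m - c * s = j' * m - c * s' := by
      have h2 : ((j * m - c * s : ℕ) : ℤ) = ((j' * m - c * s' : ℕ) : ℤ) := by exact_mod_cast heq
      rw [Nat.cast_sub hq.2.1.le, Nat.cast_sub hq'.2.1.le] at h2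
      push_cast at h2
      exact h2
    have h2 : (c : ℤ) ∣ ((j : ℤ) - j') * m := ⟨(s : ℤ) - s', by linear_combination h1⟩
    have h3 : (c : ℤ) ∣ ((j : ℤ) - j') := by
      refine IsCoprime.dvd_of_dvd_mul_right ?_ h2
      exact Nat.isCoprime_iff_coprime.2 hcop
    have h4 : j = j' := by
      obtain ⟨a, ha⟩ := h3
      have hj1 := hq.1.2
      have hj2 := hq'.1.2
      have h5 : a = 0 := by
        by_contra hne
        rcases lt_or_gt_of_ne hne with h6 | h6
        · have : (c : ℤ) * a ≤ c * (-1) := mul_le_mul_of_nonneg_left (by omega) (by omega)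
          omega
        · have : (c : ℤ) * 1 ≤ c * a := mul_le_mul_of_nonneg_left (by omega) (by omega)
          omega
      rw [h5] at ha
      omega
    subst h4
    have h5 : (c : ℤ) * s = c * s' := by linarith
    have h6 : s = s' := by
      have h7 : (c : ℤ) ≠ 0 := by exact_mod_cast hc.ne_zero
      exact_mod_cast mul_left_cancel₀ h7 h5
    rw [h6]
  · intro h hh
    rw [mem_Icc] at hh
    -- find j in [1,c] with j m ≡ h mod c
    have hcpos : 0 < c := hc.pos
    obtain ⟨u, hu⟩ : ∃ u : ℕ, (m * u) % c = 1 % c := by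
      obtain ⟨u, -, hu⟩ := Nat.exists_mul_mod_eq_one_of_coprime hcop.symm hc.one_lt
      exact ⟨u, by rw [hu, Nat.mod_eq_of_lt hc.one_lt]⟩
    set j0 := (u * h) % c with hj0
    have hj0m : (j0 * m) % c = h % c := by
      have h1 : (j0 * m) % c = ((u * h) * m) % c := by
        rw [hj0]
        exact Nat.ModEq.mul_right m (Nat.mod_modEq _ _)
      rw [h1]
      have h2 : u * h * m = (m * u) * h := by ring
      rw [h2]
      have h3 : (m * u * h) % c = (1 * h) % c := Nat.ModEq.mul_right h hu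
      rw [h3, one_mul]
    set j := if j0 = 0 then c else j0 with hj
    have hjm : (j * m) % c = h % c := by
      rw [hj]
      split_ifs with h1
      · rw [← hj0m, h1]
        simp
      · exact hj0m
    have hj1 : 1 ≤ j ∧ j ≤ c := by
      rw [hj]
      have := Nat.mod_lt (u * h) hcpos
      split_ifs with h1
      · omega
      · omega
    have hjm2 : h ≤ j * m := by
      have : 1 * m ≤ j * m := Nat.mul_le_mul_right m hj1.1
      omega
    have hdvd : c ∣ j * m - h := (Nat.modEq_iff_dvd' hjm2).1 (Eq.symm hjm)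
    obtain ⟨s, hs⟩ := hdvd
    refine ⟨(s, j), ?_, ?_⟩
    · simp only [mem_filter, mem_product, mem_range, mem_Icc]
      have h5 : c * s < c * m := by
        have : j * m ≤ c * m := Nat.mul_le_mul_right m hj1.2
        omega
      have h6 : s < m := Nat.lt_of_mul_lt_mul_left h5
      refine ⟨⟨h6, hj1⟩, ?_, ?_⟩ <;> omega
    · change j * m - c * s = h
      omega
  · rintro ⟨s, j⟩ _
    rfl

/-- **the jumps of `G`** -/
theorem GG_step (f p c : ℕ) [hp : Fact p.Prime] (hc : c.Prime) (hcf : ¬ c ∣ f)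
    (hcp : c * f < p) (hf : 2 ≤ f) (X : MulChar (ZMod f) Ω) (y : ZMod p) :
    (X (-1) * X ((c : ℕ) : ZMod f)) * (GG f p c X (y + 1) - GG f p c X y) =
      ∑ h ∈ Ioo 0 (c * f), (if ((h : ℕ) : ZMod p) = -((c * f : ℕ) : ZMod p) * y then
        wt f c X h else 0) := by
  classical
  have hcpp : c ≠ p := by
    intro h
    have : c ≤ c * f := Nat.le_mul_of_pos_right c (by omega)
    omega
  have hcp0 : ((c : ℕ) : ZMod p) ≠ 0 := by
    intro h
    rw [ZMod.natCast_eq_zero_iff] at h
    exact hcpp ((Nat.prime_dvd_prime_iff_eq hp.out hc).1 h).symm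
  set m := f * p with hm
  have hm0 : 0 < m := Nat.mul_pos (by omega) hp.out.pos
  have hpm : p ≤ m := Nat.le_mul_of_pos_left p (by omega)
  have hcfm : c * f ≤ m := by omega
  have hfm : f ≤ m := Nat.le_mul_of_pos_right f hp.out.pos
  have hmp : ((m : ℕ) : ZMod p) = 0 := by rw [hm]; push_cast; simp
  have hmf : ((m : ℕ) : ZMod f) = 0 := by rw [hm]; push_cast; simp
  have hcast_p : ∀ s : ℕ, (((s + f) % m : ℕ) : ZMod p) = (s : ZMod p) + f := by
    intro s
    have h1 : (((s + f) % m : ℕ) : ZMod p) = ((s + f : ℕ) : ZMod p) := by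
      rw [ZMod.natCast_eq_natCast_iff]
      exact Nat.ModEq.of_dvd (dvd_mul_left p f) (Nat.mod_modEq _ _)
    rw [h1]
    push_cast
    rfl
  have hcast_f : ∀ s : ℕ, (((s + f) % m : ℕ) : ZMod f) = (s : ZMod f) := by
    intro s
    have h1 : (((s + f) % m : ℕ) : ZMod f) = ((s + f : ℕ) : ZMod f) := by
      rw [ZMod.natCast_eq_natCast_iff]
      exact Nat.ModEq.of_dvd (dvd_mul_right f p) (Nat.mod_modEq _ _)
    rw [h1]
    push_cast
    simp
  -- the difference as a sum over pairs
  have h1 : GG f p c X (y + 1) - GG f p c X y =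
      ∑ s ∈ range m, ∑ j ∈ Icc 1 c, (if c * s < j * m ∧ j * m ≤ c * s + c * f then
        (if ((s : ℕ) : ZMod p) = (f : ZMod p) * y then
          X ((s : ℕ) : ZMod f) * (1 - (if j = c then (c : Ω) else 0)) else 0) else 0) := by
    unfold GG
    rw [← hm, sum_shift m f hfm (fun t => if ((t : ℕ) : ZMod p) = (f : ZMod p) * (y + 1) then
      ((c * t / m : ℕ) : Ω) * X ((t : ℕ) : ZMod f) else 0), ← sum_sub_distrib]
    refine sum_congr rfl fun s hs => ?_
    rw [mem_range] at hs
    have e1 : ((((s + f) % m : ℕ)) : ZMod p) = (f : ZMod p) * (y + 1) ↔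
        ((s : ℕ) : ZMod p) = (f : ZMod p) * y := by
      rw [hcast_p, mul_add, mul_one]
      constructor
      · intro h
        exact add_right_cancel h
      · intro h
        rw [h]
    by_cases h2 : ((s : ℕ) : ZMod p) = (f : ZMod p) * y
    · rw [if_pos (e1.2 h2), if_pos h2, hcast_f]
      have h3 := floor_step m c f s hc.pos hs hcfm
      have h4 : ((c * ((s + f) % m) / m : ℕ) : Ω) - ((c * s / m : ℕ) : Ω) =
          ∑ j ∈ Icc 1 c, (if c * s < j * m ∧ j * m ≤ c * s + c * f then
            (1 - (if j = c then (c : Ω) else 0)) else 0) := by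
        have h5 := congrArg (Int.cast : ℤ → Ω) h3
        simp only [Int.cast_sub, Int.cast_natCast, Int.cast_sum, Int.cast_ite, Int.cast_one,
          Int.cast_zero] at h5
        exact h5
      rw [← sub_mul, h4, sum_mul]
      refine sum_congr rfl fun j _ => ?_
      simp only [if_pos h2]
      split_ifs <;> ring
    · rw [if_neg (fun h => h2 (e1.1 h)), if_neg h2, sub_zero]
      symm
      refine sum_eq_zero fun j _ => ?_
      simp only [if_neg h2, ite_self]
  have h2 : GG f p c X (y + 1) - GG f p c X y =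
      ∑ q ∈ (range m ×ˢ Icc 1 c).filter (fun q => c * q.1 < q.2 * m ∧
      q.2 * m ≤ c * q.1 + c * f), (if ((q.1 : ℕ) : ZMod p) = (f : ZMod p) * y then
          X ((q.1 : ℕ) : ZMod f) * (1 - (if q.2 = c then (c : Ω) else 0)) else 0) := by
    rw [h1, sum_filter, sum_product]
  have h3 := sum_pairs f p c hc hcf hcp (by omega)
    (fun h => (if ((h : ℕ) : ZMod p) = -((c * f : ℕ) : ZMod p) * y then wt f c X h else 0))
  rw [← hm] at h3
  have h4 : ∑ h ∈ Icc 1 (c * f), (if ((h : ℕ) : ZMod p) = -((c * f : ℕ) : ZMod p) * y then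
        wt f c X h else 0) = ∑ h ∈ Ioo 0 (c * f), (if ((h : ℕ) : ZMod p) =
          -((c * f : ℕ) : ZMod p) * y then wt f c X h else 0) := by
    have hcf0 : 0 < c * f := Nat.mul_pos hc.pos (by omega)
    have h5 : Icc 1 (c * f) = insert (c * f) (Ioo 0 (c * f)) := by
      ext x
      rw [mem_Icc, mem_insert, mem_Ioo]
      omega
    rw [h5, sum_insert (by simp)]
    have h6 : wt f c X (c * f) = 0 := by
      unfold wt
      have h7 : (((c * f : ℕ)) : ZMod f) = 0 := by push_cast; simp
      have : Fact (1 < f) := ⟨by omega⟩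
      rw [h7, MulChar.map_zero, zero_mul]
    rw [h6, ite_self, zero_add]
  rw [← h4, ← h3, h2, mul_sum]
  refine sum_congr rfl fun q hq => ?_
  simp only [mem_filter, mem_product, mem_range, mem_Icc] at hq
  obtain ⟨⟨hq1, hq2⟩, hq3, hq4⟩ := hq
  have hhp : (((q.2 * m - c * q.1 : ℕ)) : ZMod p) = -((c : ZMod p) * q.1) := by
    rw [Nat.cast_sub hq3.le]
    push_cast
    rw [hmp]
    ring
  have hhf : (((q.2 * m - c * q.1 : ℕ)) : ZMod f) = -1 * ((c : ZMod f) * q.1) := by
    rw [Nat.cast_sub hq3.le]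
    push_cast
    rw [hmf]
    ring
  have e1 : (((q.2 * m - c * q.1 : ℕ)) : ZMod p) = -((c * f : ℕ) : ZMod p) * y ↔
      ((q.1 : ℕ) : ZMod p) = (f : ZMod p) * y := by
    rw [hhp]
    push_cast
    constructor
    · intro h
      apply mul_left_cancel₀ hcp0
      linear_combination -h
    · intro h
      rw [h]
      ring
  have e2 : c ∣ q.2 * m - c * q.1 ↔ q.2 = c := by
    have hcop : Nat.Coprime c m := by
      rw [hm]
      refine Nat.Coprime.mul_right ((Nat.Prime.coprime_iff_not_dvd hc).2 hcf) ?_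
      exact (Nat.coprime_primes hc hp.out).2 hcpp
    constructor
    · intro h
      have h5 : c ∣ q.2 * m := by
        have h6 : q.2 * m = (q.2 * m - c * q.1) + c * q.1 := by omega
        rw [h6]
        exact dvd_add h (dvd_mul_right c _)
      have h6 : c ∣ q.2 := hcop.dvd_of_dvd_mul_right h5
      exact le_antisymm hq2.2 (Nat.le_of_dvd (by omega) h6)
    · intro h
      rw [h, ← Nat.mul_sub]
      exact dvd_mul_right c _
  have hX1 : X (-1) * X (-1) = 1 := by
    rw [← map_mul]
    simp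
  by_cases h5 : ((q.1 : ℕ) : ZMod p) = (f : ZMod p) * y
  · rw [if_pos h5, if_pos (e1.2 h5)]
    unfold wt
    rw [hhf, map_mul, map_mul]
    simp only [e2]
    ring
  · rw [if_neg h5, if_neg (fun h => h5 (e1.1 h)), mul_zero]

end H99AB
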